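import Pool.Agent.Y140.AW.Stm2

/-!
Project AW2, part HIT (by helper153): Hilbert irreducibility over `κ(X)` with polynomial values.
Adaptation of `Pool/Agent/W200/IG/HD.lean`, `HE.lean`, `HF.lean`.
-/

set_option autoImplicit false

namespace Pool.Agent.Y153.AW2.Hit

open Polynomial Pool.Agent.W200.IG

/-- Root form of Hilbert irreducibility over the `K`-algebra `A`, with parameter in `S`. -/
def HPS (K A : Type) [Field K] [CommRing A] [Algebra K A] (S : Set K) : Prop :=
  ∀ (ι : Type) [Finite ι] (f : ι → A[X][X]), (∀ i, (f i).Monic) → (∀ i, RSep (f i)) →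
    (∀ i g, (f i).eval g ≠ 0) → ∀ Fs : Finset K,
    ∃ t, t ∈ S ∧ t ∉ Fs ∧ ∀ i (x : A), (f i).evalEval (algebraMap K A t) x ≠ 0

theorem hp_base' {κ : Type} [Field κ] [Finite κ] (K : Type) [Field K] [Algebra κ[X] K]
    [IsFractionRing κ[X] K] : HPS K K (Set.range (algebraMap κ[X] K)) := by
  classical
  intro ι _ f hf hs hroot Fs
  set α : κ[X] →+* K := algebraMap κ[X] K with hαdef
  have hα : Function.Injective α := IsFractionRing.injective _ _
  set φ : κ[X][X] →+* K[X] := mapRingHom α with hφ
  have hφinj : Function.Injective φ := map_injective _ hα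
  have key : ∀ i, ∃ (δ : κ[X]) (F : κ[X][X][X]), δ ≠ 0 ∧ F.Monic ∧
      F.map φ = scaleRoots (f i) (C (α δ)) := by
    intro i
    have hclear : ∀ j, ∃ c : κ[X], c ≠ 0 ∧ C (α c) * (f i).coeff j ∈ φ.range := by
      intro j
      obtain ⟨c, P, hc, hP⟩ := H391R2.exists_clear (R := κ[X]) ((f i).coeff j)
      refine ⟨c, hc, P, ?_⟩
      rw [hφ, coe_mapRingHom]
      exact hP
    choose c hc0 hc using hclear
    set δ : κ[X] := ∏ j ∈ Finset.range ((f i).natDegree), c j with hδ
    have hδ0 : δ ≠ 0 := Finset.prod_ne_zero_iff.2 fun j _ => hc0 j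
    have hCint : ∀ m : κ[X], C (α m) ∈ φ.range := fun m => ⟨C m, by simp [hφ]⟩
    have hlift : scaleRoots (f i) (C (α δ)) ∈ lifts φ := by
      rw [lifts_iff_coeff_lifts]
      intro j
      rw [coeff_scaleRoots]
      change _ ∈ φ.range
      rcases lt_trichotomy j (f i).natDegree with hj | hj | hj
      · have h1 : (f i).coeff j * C (α δ) ^ ((f i).natDegree - j) =
          (C (α (∏ k ∈ (Finset.range (f i).natDegree).erase j, c k))) *
            (C (α (c j)) * (f i).coeff j) * C (α δ) ^ ((f i).natDegree - j - 1) := by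
          have h2 : α δ = α (∏ k ∈ (Finset.range (f i).natDegree).erase j, c k) * α (c j) := by
            rw [hδ, ← Finset.prod_erase_mul _ _ (Finset.mem_range.2 hj), map_mul]
          have h3 : C (α δ) ^ ((f i).natDegree - j) =
              C (α δ) * C (α δ) ^ ((f i).natDegree - j - 1) := by
            rw [← pow_succ']; congr 1; omega
          have h4 : C (α δ) = C (α (∏ k ∈ (Finset.range (f i).natDegree).erase j, c k)) *
              C (α (c j)) := by rw [← C_mul, ← h2]
          rw [h3]
          nth_rewrite 1 [h4]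
          ring
        rw [h1]
        exact φ.range.mul_mem (φ.range.mul_mem (hCint _) (hc j)) (φ.range.pow_mem (hCint δ) _)
      · rw [hj, (hf i).coeff_natDegree, Nat.sub_self, pow_zero, mul_one]
        exact φ.range.one_mem
      · rw [coeff_eq_zero_of_natDegree_lt hj, zero_mul]
        exact φ.range.zero_mem
    obtain ⟨F, hF, -, hFm⟩ := lifts_and_natDegree_eq_and_monic hlift
      ((monic_scaleRoots_iff _).2 (hf i))
    exact ⟨δ, F, hδ0, hFm, hF⟩
  choose δ F hδ0 hFm hF using key
  have hδK : ∀ i, α (δ i) ≠ 0 := fun i => by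
    rw [Ne, map_eq_zero_iff α hα]; exact hδ0 i
  have hFroot : ∀ i (g : κ[X][X]), (F i).eval g ≠ 0 := by
    intro i g hg
    apply hroot i (C (α (δ i))⁻¹ * φ g)
    have h1 : (scaleRoots (f i) (C (α (δ i)))).eval (φ g) = 0 := by
      rw [← hF, eval_map_apply, hg, map_zero]
    have h2 : φ g = C (α (δ i)) * (C (α (δ i))⁻¹ * φ g) := by
      rw [← mul_assoc, ← C_mul, mul_inv_cancel₀ (hδK i), C_1, one_mul]
    rw [h2, scaleRoots_eval_mul] at h1
    have h3 : (C (α (δ i))) ^ (f i).natDegree ≠ 0 := pow_ne_zero _ (C_ne_zero.2 (hδK i))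
    exact (mul_eq_zero.1 h1).resolve_left h3
  have hFs : ∀ i, RSep (F i) := by
    intro i
    let L := FractionRing K[X]
    let ψ : K[X] →+* L := algebraMap K[X] L
    have hψ : Function.Injective ψ := IsFractionRing.injective _ _
    apply rsep_of_sep (ψ.comp φ) (hψ.comp hφinj)
    rw [← Polynomial.map_map, hF, map_scaleRoots _ _ _ (by
      rw [(hf i).leadingCoeff, map_one]; exact one_ne_zero)]
    apply sep_scaleRoots
    · rw [Ne, map_eq_zero_iff ψ hψ]
      exact C_ne_zero.2 (hδK i)
    · exact (hs i).sep ψ hψ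
  obtain ⟨t, ht, hroot'⟩ := hit_fam F hFm hFs hFroot (Fs.preimage α hα.injOn)
  refine ⟨α t, ⟨t, rfl⟩, fun h => ht (Finset.mem_preimage.2 h), fun i x hx => ?_⟩
  rw [Algebra.algebraMap_self_apply] at hx
  -- `δ x` is an integral root of `F(t, X)`
  have h1 : (((F i).map (evalRingHom t)).map α).eval (α (δ i) * x) = 0 := by
    have h2 : ((F i).map (evalRingHom t)).map α =
        (scaleRoots (f i) (C (α (δ i)))).map (evalRingHom (α t)) := by
      rw [← hF, Polynomial.map_map, Polynomial.map_map]
      congr 1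
      ext q
      · simp [hφ]
      · simp [hφ]
      · simp [hφ]
    rw [h2, eval_map]
    have h3 := scaleRoots_eval₂_mul (p := f i) (evalRingHom (α t)) x (C (α (δ i)))
    rw [coe_evalRingHom, eval_C] at h3
    rw [h3, eval₂_evalRingHom, hx, mul_zero]
  have h4 : IsIntegral κ[X] (α (δ i) * x) := by
    refine ⟨(F i).map (evalRingHom t), (hFm i).map _, ?_⟩
    rw [← eval_map]
    exact h1
  obtain ⟨y, hy⟩ := IsIntegrallyClosed.isIntegral_iff.1 h4
  apply hroot' i y
  rw [← hy] at h1
  rw [← hαdef, eval_map_apply] at h1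
  rw [← map_evalRingHom_eval]
  exact (map_eq_zero_iff α hα).1 h1

theorem hp_poly' {K A : Type} [Field K] [Infinite K] [CommRing A] [IsDomain A] [Algebra K A]
    {S : Set K} (hA : HPS K A S) : HPS K A[X] S := by
  classical
  intro ι _ f hf hs hroot Fs
  cases nonempty_fintype ι
  by_contra hcon
  push Not at hcon
  have hcast : Function.Injective (algebraMap K A) := FaithfulSMul.algebraMap_injective K A
  choose U V r hr hUV using hs
  -- degree bound
  have hDex : ∀ ii, ∃ D : ℕ, ∀ i k, (((f ii).coeff i).coeff k).natDegree ≤ D := by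
    intro ii
    refine ⟨(Finset.range ((f ii).natDegree + 1)).sup fun i =>
      (Finset.range (((f ii).coeff i).natDegree + 1)).sup fun k =>
        (((f ii).coeff i).coeff k).natDegree, fun i k => ?_⟩
    by_cases hi : i ≤ (f ii).natDegree
    · by_cases hk : k ≤ ((f ii).coeff i).natDegree
      · refine le_trans ?_ (Finset.le_sup (f := fun i =>
          (Finset.range (((f ii).coeff i).natDegree + 1)).sup fun k =>
          (((f ii).coeff i).coeff k).natDegree) (Finset.mem_range.2 (Nat.lt_succ_of_le hi)))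
        exact Finset.le_sup (f := fun k => (((f ii).coeff i).coeff k).natDegree)
          (Finset.mem_range.2 (Nat.lt_succ_of_le hk))
      · rw [coeff_eq_zero_of_natDegree_lt (not_le.1 hk), natDegree_zero]
        exact Nat.zero_le _
    · rw [coeff_eq_zero_of_natDegree_lt (not_le.1 hi), coeff_zero, natDegree_zero]
      exact Nat.zero_le _
  choose D0 hD0 using hDex
  set D : ℕ := ∑ i, D0 i with hDdef
  have hD : ∀ ii i k, (((f ii).coeff i).coeff k).natDegree ≤ D := fun ii i k =>
    (hD0 ii i k).trans (Finset.single_le_sum (f := D0) (fun _ _ => Nat.zero_le _)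
      (Finset.mem_univ ii))
  have hDt : ∀ (ii : ι) (t : K) (i : ℕ),
      (((f ii).map (evalRingHom (algebraMap K A[X] t))).coeff i).natDegree ≤ D := by
    intro ii t i
    rw [coeff_map, coe_evalRingHom, eval_eq_sum_range]
    apply natDegree_sum_le_of_forall_le
    intro k _
    refine natDegree_mul_le.trans ?_
    have h1 : ((algebraMap K A[X] t) ^ k).natDegree = 0 := by
      rw [Polynomial.algebraMap_apply, ← C_pow, natDegree_C]
    rw [h1, add_zero]
    exact hD ii i k
  -- good interpolation points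
  obtain ⟨β, hβinj, hβ⟩ : ∃ β : Fin (D + 1) → K, Function.Injective β ∧
      ∀ b ii, ((r ii).leadingCoeff).eval (algebraMap K A (β b)) ≠ 0 := by
    have hinf : {b : K | ∀ ii, ((r ii).leadingCoeff).eval (algebraMap K A b) ≠ 0}.Infinite := by
      have h1 : {b : K | ∀ ii, ((r ii).leadingCoeff).eval (algebraMap K A b) ≠ 0}ᶜ.Finite := by
        have h2 : {b : K | ∀ ii, ((r ii).leadingCoeff).eval (algebraMap K A b) ≠ 0}ᶜ =
            ⋃ ii, (algebraMap K A) ⁻¹' {a : A | ((r ii).leadingCoeff).eval a = 0} := by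
          ext b
          simp
        rw [h2]
        refine Set.finite_iUnion fun ii => ?_
        refine Set.Finite.preimage hcast.injOn ?_
        refine ((r ii).leadingCoeff.rootSet_finite A).subset ?_
        intro a ha
        rw [mem_rootSet]
        exact ⟨leadingCoeff_ne_zero.2 (hr ii), by simpa using ha⟩
      exact Set.infinite_of_finite_compl h1
    let emb := hinf.natEmbedding
    refine ⟨fun b => emb (b : ℕ), ?_, ?_⟩
    · intro a b hab
      apply Fin.ext
      exact emb.injective (Subtype.ext hab)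
    · intro b ii
      exact (emb (b : ℕ)).2 ii
  -- specialisations in the inner variable
  let fb : ι → Fin (D + 1) → A[X][X] := fun ii b =>
    (f ii).map (mapRingHom (evalRingHom (algebraMap K A (β b))))
  have hfb : ∀ ii b, (fb ii b).Monic := fun ii b => (hf ii).map _
  have hfbs : ∀ ii b, RSep (fb ii b) := by
    intro ii b
    refine ⟨(U ii).map (mapRingHom (evalRingHom (algebraMap K A (β b)))),
      (V ii).map (mapRingHom (evalRingHom (algebraMap K A (β b)))),
      (r ii).map (evalRingHom (algebraMap K A (β b))), ?_, ?_⟩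
    · intro h
      apply hβ b ii
      have h1 := congrArg (fun p : A[X] => p.coeff (r ii).natDegree) h
      simpa using h1
    · have h1 := congrArg (Polynomial.map (mapRingHom (evalRingHom (algebraMap K A (β b)))))
        (hUV ii)
      rw [Polynomial.map_add, Polynomial.map_mul, Polynomial.map_mul, map_C,
        ← derivative_map] at h1
      exact h1
  have hfac : ∀ ii b, ∃ q : A[X][X],
      (Multiset.map (fun a => X - C a) (fb ii b).roots).prod * q = fb ii b ∧
      q.Monic ∧ ∀ g : A[X], q.eval g ≠ 0 := by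
    intro ii b
    obtain ⟨q, hq, -, hq0⟩ := exists_prod_multiset_X_sub_C_mul (fb ii b)
    have hqm : q.Monic := (monic_multiset_prod_of_monic _ _
      (fun a _ => monic_X_sub_C a)).of_mul_monic_left (by rw [hq]; exact hfb ii b)
    refine ⟨q, hq, hqm, fun g hg => ?_⟩
    have : g ∈ q.roots := (mem_roots hqm.ne_zero).2 hg
    rw [hq0] at this
    exact absurd this (Multiset.notMem_zero _)
  choose q hq hqm hqroot using hfac
  have hqs : ∀ ii b, RSep (q ii b) := by
    intro ii b
    have hinj : Function.Injective (algebraMap A[X] (FractionRing A[X])) :=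
      IsFractionRing.injective _ _
    apply rsep_of_sep _ hinj
    have h1 := (hfbs ii b).sep _ hinj
    rw [← hq ii b, Polynomial.map_mul] at h1
    exact h1.of_mul_right
  let T : Set K := {t | t ∈ S ∧ t ∉ Fs ∧ ∀ ii b (x : A), (q ii b).evalEval (algebraMap K A t) x ≠ 0}
  have hTinf : T.Infinite := by
    intro hfin
    obtain ⟨t, htS, ht, hx⟩ := hA (ι × Fin (D + 1)) (fun ib => q ib.1 ib.2) (fun ib => hqm _ _)
      (fun ib => hqs _ _) (fun ib => hqroot _ _) (Fs ∪ hfin.toFinset)
    rw [Finset.mem_union, not_or] at ht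
    apply ht.2
    rw [Set.Finite.mem_toFinset]
    exact ⟨htS, ht.1, fun ii b x => hx (ii, b) x⟩
  -- the roots
  have hg0 : ∀ t : T, ∃ ii, ∃ g : A[X], (f ii).evalEval (algebraMap K A[X] t) g = 0 :=
    fun t => hcon t t.2.1 t.2.2.1
  choose i0f g0 hg0 using hg0
  have : Infinite T := hTinf.to_subtype
  obtain ⟨i0, hi0⟩ := Finite.exists_infinite_fiber i0f
  let T' : Set T := i0f ⁻¹' {i0}
  let g : T' → A[X] := fun t => g0 t
  have hg : ∀ t : T', (f i0).evalEval (algebraMap K A[X] ((t : T) : K)) (g t) = 0 := by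
    intro t
    have h1 : i0f t = i0 := t.2
    rw [← h1]
    exact hg0 t
  have hgD : ∀ t : T', (g t).natDegree ≤ D := by
    intro t
    refine H391R2.natDegree_root_le ((f i0).map (evalRingHom (algebraMap K A[X] ((t : T) : K))))
      ((hf i0).map _) D (hDt i0 _) (g t) ?_
    rw [map_evalRingHom_eval]
    exact hg t
  have hchoice : ∀ (t : T') (b : Fin (D + 1)), ∃ a : (fb i0 b).roots.toFinset,
      (g t).eval (algebraMap K A (β b)) = (a : A[X]).eval (algebraMap K A ((t : T) : K)) := by
    intro t b
    have h1 : (fb i0 b).evalEval (algebraMap K A ((t : T) : K))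
        ((g t).eval (algebraMap K A (β b))) = 0 := by
      have h2 := congrArg (eval (algebraMap K A (β b))) (hg t)
      rw [eval_zero] at h2
      rw [← h2]
      simp only [fb]
      have h3 := map_mapRingHom_evalEval (evalRingHom (algebraMap K A (β b))) (f i0)
        (algebraMap K A[X] ((t : T) : K)) (g t)
      simp only [coe_evalRingHom, Polynomial.algebraMap_apply, eval_C] at h3
      exact h3
    rw [← hq i0 b, evalEval_mul] at h1
    have h2 : (q i0 b).evalEval (algebraMap K A ((t : T) : K))
        ((g t).eval (algebraMap K A (β b))) ≠ 0 := (t : T).2.2.2 i0 b _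
    have h3 := (mul_eq_zero.1 h1).resolve_right h2
    rw [evalEval_multiset_prod, Multiset.prod_eq_zero_iff, Multiset.map_map, Multiset.mem_map] at h3
    obtain ⟨a, ha, ha0⟩ := h3
    refine ⟨⟨a, Multiset.mem_toFinset.2 ha⟩, ?_⟩
    simp only [Function.comp_apply, evalEval_sub, evalEval_X, evalEval_C] at ha0
    exact sub_eq_zero.1 ha0
  choose c hc using hchoice
  have : Infinite T' := hi0
  obtain ⟨c0, hc0⟩ := Finite.exists_infinite_fiber (fun (t : T') (b : Fin (D + 1)) => c t b)
  -- interpolate
  let ℓ : Fin (D + 1) → A[X] := fun b =>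
    (Lagrange.basis Finset.univ β b).map (algebraMap K A)
  have hinjQ : Set.InjOn β ((Finset.univ : Finset (Fin (D + 1))) : Set (Fin (D + 1))) :=
    hβinj.injOn
  have hℓ : ∀ b b' : Fin (D + 1), (ℓ b).eval (algebraMap K A (β b')) = if b = b' then 1 else 0 := by
    intro b b'
    simp only [ℓ]
    rw [eval_map_apply]
    split_ifs with h
    · have h2 := Lagrange.eval_basis_self hinjQ (Finset.mem_univ b')
      rw [h]
      exact (congrArg (algebraMap K A) h2).trans (map_one _)
    · have h2 := Lagrange.eval_basis_of_ne (s := Finset.univ)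
        (v := β) h (Finset.mem_univ b')
      exact (congrArg (algebraMap K A) h2).trans (map_zero _)
  have hℓdeg : ∀ b, (ℓ b).natDegree ≤ D := by
    intro b
    refine natDegree_map_le.trans ?_
    have := Lagrange.degree_basis hinjQ (Finset.mem_univ b)
    have h2 := natDegree_eq_of_degree_eq_some this
    rw [h2]
    simp
  have hβA : Function.Injective (fun b : Fin (D + 1) => algebraMap K A (β b)) :=
    hcast.comp hβinj
  let G : A[X][X] := ∑ b : Fin (D + 1), C (ℓ b) * ((c0 b : (fb i0 b).roots.toFinset) : A[X]).map C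
  have hGt : ∀ t : T', t ∈ (fun (t : T') (b : Fin (D + 1)) => c t b) ⁻¹' {c0} →
      G.eval (algebraMap K A[X] ((t : T) : K)) = g t := by
    intro t ht
    have hct : ∀ b, c t b = c0 b := fun b => congrFun ht b
    have h1 : G.eval (algebraMap K A[X] ((t : T) : K)) =
        ∑ b : Fin (D + 1), ℓ b * C ((g t).eval (algebraMap K A (β b))) := by
      simp only [G, eval_finsetSum, eval_mul, eval_C]
      refine Finset.sum_congr rfl fun b _ => ?_
      congr 1
      have h2 : algebraMap K A[X] ((t : T) : K) = C (algebraMap K A ((t : T) : K)) := rfl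
      rw [h2, eval_map_apply, hc t b, hct b]
    rw [h1]
    apply eq_of_degrees_lt_of_eval_finset_eq
      (Finset.univ.image fun b : Fin (D + 1) => algebraMap K A (β b))
    · rw [Finset.card_image_of_injective _ hβA, Finset.card_univ, Fintype.card_fin]
      refine (degree_sum_le _ _).trans_lt ?_
      rw [Finset.sup_lt_iff]
      · intro b _
        refine (degree_mul_le _ _).trans_lt ?_
        calc (ℓ b).degree + (C ((g t).eval (algebraMap K A (β b)))).degree
            ≤ (ℓ b).degree + 0 := by gcongr; exact degree_C_le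
          _ = (ℓ b).degree := add_zero _
          _ ≤ ((ℓ b).natDegree : WithBot ℕ) := degree_le_natDegree
          _ < ((D + 1 : ℕ) : WithBot ℕ) := by
              exact_mod_cast Nat.lt_succ_of_le (hℓdeg b)
      · exact WithBot.bot_lt_coe _
    · rw [Finset.card_image_of_injective _ hβA, Finset.card_univ, Fintype.card_fin]
      refine degree_le_natDegree.trans_lt ?_
      exact_mod_cast Nat.lt_succ_of_le (hgD t)
    · intro x hx
      obtain ⟨b', -, rfl⟩ := Finset.mem_image.1 hx
      rw [eval_finsetSum]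
      simp only [eval_mul, eval_C, hℓ]
      rw [Finset.sum_eq_single b']
      · simp
      · intro b _ hne
        rw [if_neg hne, zero_mul]
      · simp
  apply hroot i0 G
  apply eq_zero_of_infinite_isRoot
  let emb : ((fun (t : T') (b : Fin (D + 1)) => c t b) ⁻¹' {c0}) → A[X] :=
    fun t => algebraMap K A[X] (((t : T') : T) : K)
  have hemb : Function.Injective emb := by
    intro a b hab
    apply Subtype.ext
    apply Subtype.ext
    apply Subtype.ext
    apply hcast
    exact C_injective hab
  refine (Set.infinite_range_of_injective hemb).mono ?_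
  rintro _ ⟨t, rfl⟩
  change ((f i0).eval G).eval (algebraMap K A[X] (((t : T') : T) : K)) = 0
  have h1 := hg t
  rw [← hGt t t.2] at h1
  rw [← map_evalRingHom_eval] at h1
  have h2 : G.eval (algebraMap K A[X] (((t : T') : T) : K)) =
    evalRingHom (algebraMap K A[X] (((t : T') : T) : K)) G := rfl
  rw [h2, eval_map_apply] at h1
  exact h1

/-- Specialisations to `K` keeping a finite family of monic polynomials without roots, with the
values of the elements of `G` in `S`. -/
def SPS (K A : Type) [Field K] [CommRing A] [Algebra K A] (S : Set K) (G : Set A) : Prop :=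
  ∀ (ι : Type) [Finite ι] (f : ι → A[X]), (∀ i, (f i).Monic) → (∀ i, RSep (f i)) →
    (∀ i (x : A), (f i).eval x ≠ 0) → ∀ D : A, D ≠ 0 →
    ∃ φ : A →ₐ[K] K, (∀ g ∈ G, φ g ∈ S) ∧ φ D ≠ 0 ∧
      ∀ i (x : K), ((f i).map (φ : A →+* K)).eval x ≠ 0

theorem HPS.of_equiv {K A A' : Type} [Field K] [CommRing A] [CommRing A'] [Algebra K A]
    [Algebra K A'] {S : Set K} (e : A ≃ₐ[K] A') (h : HPS K A S) : HPS K A' S := by
  intro ι _ f hf hs hroot Fs
  have hinj : Function.Injective (mapRingHom (e.symm : A' →+* A)) :=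
    map_injective _ e.symm.injective
  set g : ι → A[X][X] := fun i => (f i).map (mapRingHom (e.symm : A' →+* A)) with hg
  have hroot' : ∀ i (q : A[X]), (g i).eval q ≠ 0 := by
    intro i q hq
    apply hroot i (mapRingHom (e : A →+* A') q)
    have h1 := congrArg (mapRingHom (e : A →+* A')) hq
    rw [← eval_map_apply, hg, Polynomial.map_map, map_zero] at h1
    have h2 : (mapRingHom (e : A →+* A')).comp (mapRingHom (e.symm : A' →+* A)) = RingHom.id _ := by
      ext x <;> simp
    rw [h2, Polynomial.map_id] at h1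
    exact h1
  obtain ⟨t, htS, ht, hx⟩ := h ι g (fun i => (hf i).map _) (fun i => (hs i).map _ hinj) hroot' Fs
  refine ⟨t, htS, ht, fun i x hx0 => hx i (e.symm x) ?_⟩
  have h3 := map_mapRingHom_evalEval (e.symm : A' →+* A) (f i) (algebraMap K A' t) x
  have h4 : (e.symm : A' →+* A) (algebraMap K A' t) = algebraMap K A t := e.symm.commutes t
  rw [h4, hx0, map_zero] at h3
  exact h3

theorem SPS.of_equiv {K A A' : Type} [Field K] [CommRing A] [CommRing A'] [Algebra K A]
    [Algebra K A'] {S : Set K} {G : Set A} (e : A ≃ₐ[K] A') (h : SPS K A S G) (G' : Set A')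
    (hG : ∀ g ∈ G', e.symm g ∈ G) : SPS K A' S G' := by
  intro ι _ f hf hs hroot D hD
  obtain ⟨φ, h0, h1, h2⟩ := h ι (fun i => (f i).map (e.symm : A' →+* A)) (fun i => (hf i).map _)
    (fun i => (hs i).map _ e.symm.injective) (fun i x hx => by
    apply hroot i (e x)
    have h3 := congrArg e hx
    have h4 := eval_map_apply (f := (e.symm : A' →+* A)) (p := f i) (x := e x)
    have h5 : (e.symm : A' →+* A) (e x) = x := e.symm_apply_apply x
    rw [map_zero] at h3
    rw [h5] at h4
    rw [h4] at h3
    have h6 : e ((e.symm : A' →+* A) (eval (e x) (f i))) = eval (e x) (f i) :=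
      e.apply_symm_apply _
    rw [h6] at h3
    exact h3) (e.symm D) (by simpa using hD)
  refine ⟨φ.comp (e.symm : A' →ₐ[K] A), fun g hg => h0 _ (hG g hg), h1, fun i x => ?_⟩
  have h3 := h2 i x
  rw [Polynomial.map_map] at h3
  exact h3

theorem sp_base' (K : Type) [Field K] (S : Set K) : SPS K K S ∅ := by
  intro ι _ f _ _ hroot D hD
  refine ⟨AlgHom.id K K, fun g hg => absurd hg (Set.notMem_empty g), hD, fun i x => ?_⟩
  have h : ((AlgHom.id K K : K →ₐ[K] K) : K →+* K) = RingHom.id K := rfl
  rw [h, Polynomial.map_id]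
  exact hroot i x

theorem sp_poly' {K A : Type} [Field K] [CommRing A] [IsDomain A] [Algebra K A] {S : Set K}
    {G : Set A} (hA : HPS K A S) (hS : SPS K A S G) :
    SPS K A[X] S (insert X (C '' G)) := by
  classical
  intro ι _ f hf hs hroot D hD
  cases nonempty_fintype ι
  have hcast : Function.Injective (algebraMap K A) := FaithfulSMul.algebraMap_injective K A
  choose U V r hr hUV using hs
  set E : A[X] := D * ∏ i, r i with hE
  have hE0 : E ≠ 0 := mul_ne_zero hD (Finset.prod_ne_zero_iff.2 fun i _ => hr i)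
  have hfin : {t : K | E.eval (algebraMap K A t) = 0}.Finite := by
    have h1 : (E.rootSet A).Finite := E.rootSet_finite A
    refine (h1.preimage (f := algebraMap K A) hcast.injOn).subset ?_
    intro t ht
    rw [Set.mem_preimage, mem_rootSet]
    exact ⟨hE0, by simpa using ht⟩
  obtain ⟨t, htS, ht, hx⟩ := hA ι f hf (fun i => ⟨U i, V i, r i, hr i, hUV i⟩) hroot
    hfin.toFinset
  have hEt : E.eval (algebraMap K A t) ≠ 0 := by
    intro h
    exact ht (hfin.mem_toFinset.2 h)
  rw [hE, eval_mul, eval_prod] at hEt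
  have hDt : D.eval (algebraMap K A t) ≠ 0 := left_ne_zero_of_mul hEt
  have hrt : ∀ i, (r i).eval (algebraMap K A t) ≠ 0 := fun i =>
    (Finset.prod_ne_zero_iff.1 (right_ne_zero_of_mul hEt)) i (Finset.mem_univ i)
  obtain ⟨φ, h0, h1, h2⟩ := hS ι (fun i => (f i).map (evalRingHom (algebraMap K A t)))
    (fun i => (hf i).map _) (fun i => by
      refine ⟨(U i).map (evalRingHom (algebraMap K A t)), (V i).map (evalRingHom (algebraMap K A t)),
        (r i).eval (algebraMap K A t), hrt i, ?_⟩
      have h1 := congrArg (Polynomial.map (evalRingHom (algebraMap K A t))) (hUV i)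
      rw [Polynomial.map_add, Polynomial.map_mul, Polynomial.map_mul, map_C,
        ← derivative_map] at h1
      exact h1)
    (fun i x => by rw [map_evalRingHom_eval]; exact hx i x) _ hDt
  let ev : A[X] →ₐ[K] A := (aeval (algebraMap K A t) : A[X] →ₐ[A] A).restrictScalars K
  have hev : (ev : A[X] →+* A) = evalRingHom (algebraMap K A t) := by
    ext x <;> simp [ev]
  have hevx : ∀ q : A[X], ev q = q.eval (algebraMap K A t) := fun q =>
    congrArg (fun h : A[X] →+* A => h q) hev
  refine ⟨φ.comp ev, ?_, ?_, fun i x => ?_⟩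
  · intro g hg
    have h3 : (φ.comp ev) g = φ (ev g) := rfl
    rw [h3, hevx]
    rcases hg with rfl | ⟨g', hg', rfl⟩
    · rw [eval_X, φ.commutes]
      exact htS
    · rw [eval_C]
      exact h0 g' hg'
  · have h3 : (φ.comp ev) D = φ (D.eval (algebraMap K A t)) := by
      have := congrArg (fun h : A[X] →+* A => φ (h D)) hev
      exact this
    rw [h3]
    exact h1
  · have h3 := h2 i x
    rw [← hev, Polynomial.map_map] at h3
    exact h3

theorem hp_sp_fin' (K : Type) [Field K] [Infinite K] {S : Set K} (hK : HPS K K S) (n : ℕ) :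
    HPS K (MvPolynomial (Fin n) K) S ∧
      SPS K (MvPolynomial (Fin n) K) S (Set.range MvPolynomial.X) := by
  induction n with
  | zero =>
    refine ⟨hK.of_equiv (MvPolynomial.isEmptyAlgEquiv K (Fin 0)).symm,
      (sp_base' K S).of_equiv (MvPolynomial.isEmptyAlgEquiv K (Fin 0)).symm _ ?_⟩
    rintro g ⟨i, -⟩
    exact i.elim0
  | succ n ih =>
    have e := (MvPolynomial.finSuccEquiv K n)
    refine ⟨(hp_poly' ih.1).of_equiv e.symm,
      (sp_poly' ih.1 ih.2).of_equiv (MvPolynomial.finSuccEquiv K n).symm _ ?_⟩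
    rintro g ⟨i, rfl⟩
    rw [AlgEquiv.symm_symm]
    refine Fin.cases ?_ (fun j => ?_) i
    · rw [MvPolynomial.finSuccEquiv_X_zero]
      exact Set.mem_insert _ _
    · rw [MvPolynomial.finSuccEquiv_X_succ]
      exact Set.mem_insert_of_mem _ ⟨_, ⟨j, rfl⟩, rfl⟩

theorem sp_mvPolynomial' (K : Type) [Field K] [Infinite K] {S : Set K} (hK : HPS K K S)
    (ι : Type) [Finite ι] : SPS K (MvPolynomial ι K) S (Set.range MvPolynomial.X) := by
  classical
  obtain ⟨n, ⟨e⟩⟩ := Finite.exists_equiv_fin ι
  refine (hp_sp_fin' K hK n).2.of_equiv (MvPolynomial.renameEquiv K e.symm) _ ?_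
  rintro g ⟨i, rfl⟩
  rw [MvPolynomial.renameEquiv_symm, MvPolynomial.renameEquiv_apply, MvPolynomial.rename_X]
  exact ⟨_, rfl⟩

theorem t_hit : Pool.Agent.Y140.AW.St_hit := by
  intro κ ι J _ _ _ _ f hf hs hroot D hD
  have hinf : Infinite (RatFunc κ) :=
    Infinite.of_injective (algebraMap κ[X] (RatFunc κ)) (RatFunc.algebraMap_injective κ)
  obtain ⟨φ, h0, h1, h2⟩ := sp_mvPolynomial' (RatFunc κ) (hp_base' (κ := κ) (RatFunc κ)) ι J f hf
    hs hroot D hD
  choose a ha using fun i => h0 (MvPolynomial.X i) ⟨i, rfl⟩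
  have hφ : ((φ : MvPolynomial ι (RatFunc κ) →ₐ[RatFunc κ] RatFunc κ) :
      MvPolynomial ι (RatFunc κ) →+* RatFunc κ) =
      MvPolynomial.eval (fun i => algebraMap κ[X] (RatFunc κ) (a i)) := by
    apply MvPolynomial.ringHom_ext
    · intro r
      rw [MvPolynomial.eval_C]
      exact φ.commutes r
    · intro i
      rw [MvPolynomial.eval_X]
      exact (ha i).symm
  refine ⟨a, ?_, fun j x => ?_⟩
  · rw [← hφ]
    exact h1
  · rw [← hφ]
    exact h2 j x

end Pool.Agent.Y153.AW2.Hit
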